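import Pool.Agent.V11190.VM.Costs
import Pool.Agent.W966.Vf.Gen

/-!
# Verification with reliable advice
-/

set_option autoImplicit false

namespace Pool.Agent.V11190.VM

open MvPolynomial Finset Filter Pool.Agent.W966.Vg

/-- The procedure `t` weakly verifies products of `m × m` matrices with `L` multiplications and
divisions, with lists of length `M` and with `Q` pieces of advice: for a Zariski dense set of pairs
`A, B` there are elements `a 0, …, a (Q - 1)` of `K`, such that `t` can accept `A, B, A B, a`, and it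
can accept `A, B, C, a` for at most `M` matrices `C`. -/
def AdvisedVerifies {K : Type} [Field K] {m : ℕ} (Q M : ℕ) (t : NTree K (Pos3 m ⊕ Fin Q))
    (L : ℕ) : Prop :=
  ∀ p : MvPolynomial (Pos2 m) K, p ≠ 0 → ∃ A B : Matrix (Fin m) (Fin m) K,
    eval (pair A B) p ≠ 0 ∧ ∃ a : Fin Q → K, t.Accepts (Sum.elim (triple A B (A * B)) a) L ∧
      ∃ 𝒞 : Fin M → Matrix (Fin m) (Fin m) K, ∀ C,
        t.Accepts (Sum.elim (triple A B C) a) L → ∃ i, C = 𝒞 i

open Pool.Agent.W966.Mm

section tr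

variable {K : Type} [Field K] {n Q : ℕ}

/-- The register that holds the entry `v` of `C`. -/
def slot (n Q : ℕ) (v : Fin n × Fin n) : ℕ := Q + (finProdFinEquiv v : ℕ)

/-- Translation of linear combinations. -/
def trL (f : LF K (Pos3 n ⊕ Fin Q)) : Lin K n :=
  ⟨f.c, fun i j => f.x (Sum.inl (Sum.inl (Sum.inl (i, j)))),
    fun i j => f.x (Sum.inl (Sum.inl (Sum.inr (i, j)))),
    fun s => if h : s < Q then f.x (Sum.inr ⟨s, h⟩) else
      if h : s - Q < n * n then f.x (Sum.inl (Sum.inr (finProdFinEquiv.symm ⟨s - Q, h⟩))) else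
        f.r (s - (Q + n * n))⟩

/-- Translation of trees. -/
def trT : NTree K (Pos3 n ⊕ Fin Q) → QTree K n
  | .accept => .output fun i j => ⟨0, 0, 0, Pi.single (slot n Q (i, j)) 1⟩
  | .reject => .div ⟨0, 0, 0, 0⟩ ⟨0, 0, 0, 0⟩ (.output fun _ _ => ⟨0, 0, 0, 0⟩)
  | .mul f h next => .mul (trL f) (trL h) (trT next)
  | .div f h next => .div (trL f) (trL h) (trT next)
  | .guess next => .query (trT next)
  | .test f yes no => .test (trL f) (trT yes) (trT no)
  | .choose m next => .choose m fun i => trT (next i)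

/-- The registers of the translation. -/
structure Fits (C : Matrix (Fin n) (Fin n) K) (a : Fin Q → K) (l : ℕ) (g g' : ℕ → K) : Prop where
  adv : ∀ s : Fin Q, g' s = a s
  mat : ∀ v : Fin n × Fin n, g' (slot n Q v) = C v.1 v.2
  reg : ∀ s < l, g' (Q + n * n + s) = g s

lemma trL_val (A B C : Matrix (Fin n) (Fin n) K) (a : Fin Q → K) {l : ℕ} {g g' : ℕ → K}
    (h : Fits C a l g g') (f : LF K (Pos3 n ⊕ Fin Q)) :
    (trL f).val A B (Q + n * n + l) g' = f.val (Sum.elim (triple A B C) a) l g := by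
  unfold Lin.val LF.val
  rw [Finset.sum_range_add, Finset.sum_range_add]
  have e1 : ∑ s ∈ Finset.range Q, (trL f).r s * g' s = ∑ s : Fin Q, f.x (Sum.inr s) * a s := by
    rw [Finset.sum_range]
    refine Finset.sum_congr rfl fun s _ => ?_
    rw [h.adv]
    simp [trL]
  have e2 : ∑ s ∈ Finset.range (n * n), (trL f).r (Q + s) * g' (Q + s) =
      ∑ v : Fin n × Fin n, f.x (Sum.inl (Sum.inr v)) * C v.1 v.2 := by
    rw [Finset.sum_range, ← Equiv.sum_comp finProdFinEquiv]
    refine Finset.sum_congr rfl fun v _ => ?_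
    have h1 : g' (Q + (finProdFinEquiv v : ℕ)) = C v.1 v.2 := h.mat v
    rw [h1]
    congr 1
    have h2 : ¬ (Q + (finProdFinEquiv v : ℕ) < Q) := by omega
    have h3 : Q + (finProdFinEquiv v : ℕ) - Q < n * n := by
      have := (finProdFinEquiv v).2
      omega
    show (if h : Q + (finProdFinEquiv v : ℕ) < Q then _ else _) = _
    rw [dif_neg h2, dif_pos h3]
    congr 2
    have h4 : (⟨Q + (finProdFinEquiv v : ℕ) - Q, h3⟩ : Fin (n * n)) = finProdFinEquiv v :=
      Fin.ext (by simp)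
    rw [h4, Equiv.symm_apply_apply]
  have e3 : ∑ s ∈ Finset.range l, (trL f).r (Q + n * n + s) * g' (Q + n * n + s) =
      ∑ s ∈ Finset.range l, f.r s * g s := by
    refine Finset.sum_congr rfl fun s hs => ?_
    rw [h.reg s (Finset.mem_range.mp hs)]
    congr 1
    have h2 : ¬ (Q + n * n + s < Q) := by omega
    have h3 : ¬ (Q + n * n + s - Q < n * n) := by omega
    show (if h : Q + n * n + s < Q then _ else _) = _
    rw [dif_neg h2, dif_neg h3]
    congr 1
    omega
  rw [e1, e2, e3]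
  simp only [Algebra.algebraMap_self, RingHom.id_apply, Fintype.sum_sum_type, Sum.elim_inl,
    Sum.elim_inr, triple, pair, Fintype.sum_prod_type, Finset.sum_add_distrib, trL]
  ring

lemma Fits.update {C : Matrix (Fin n) (Fin n) K} {a : Fin Q → K} {l : ℕ} {g g' : ℕ → K}
    (h : Fits C a l g g') (v : K) :
    Fits C a (l + 1) (Function.update g l v) (Function.update g' (Q + n * n + l) v) := by
  refine ⟨fun s => ?_, fun w => ?_, fun s hs => ?_⟩
  · rw [Function.update_of_ne (by have := s.2; omega)]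
    exact h.adv s
  · rw [Function.update_of_ne (by
      unfold slot
      have := (finProdFinEquiv w).2
      omega)]
    exact h.mat w
  · by_cases hsl : s = l
    · subst hsl
      rw [Function.update_self, Function.update_self]
    · rw [Function.update_of_ne (by omega), Function.update_of_ne hsl]
      exact h.reg s (by omega)

lemma out_val (A B C : Matrix (Fin n) (Fin n) K) (a : Fin Q → K) {l : ℕ} {g g' : ℕ → K}
    (h : Fits C a l g g') : (Matrix.of fun i j =>
      (⟨0, 0, 0, Pi.single (slot n Q (i, j)) 1⟩ : Lin K n).val A B (Q + n * n + l) g') = C := by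
  ext i j
  unfold Lin.val
  simp only [Matrix.of_apply, Pi.zero_apply, zero_mul, add_zero, Finset.sum_const_zero, zero_add]
  rw [Finset.sum_eq_single (slot n Q (i, j)) (fun s _ hs => by rw [Pi.single_eq_of_ne hs, zero_mul])
    (fun hs => absurd (Finset.mem_range.mpr (by
      unfold slot
      have := (finProdFinEquiv (i, j)).2
      omega)) hs), Pi.single_eq_same, one_mul]
  exact h.mat (i, j)

theorem can_iff (A B C : Matrix (Fin n) (Fin n) K) (a : Fin Q → K)
    (E : Matrix (Fin n) (Fin n) K → Prop) (t : NTree K (Pos3 n ⊕ Fin Q)) :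
    ∀ (l : ℕ) (g g' : ℕ → K) (L : ℕ), Fits C a l g g' →
      ((∃ G, (trT t).CanOutput A B E (Q + n * n + l) g' L G) ↔
        t.Acc (Sum.elim (triple A B C) a) l g L ∧ E C) := by
  induction t with
  | accept =>
    intro l g g' L h
    have e := out_val A B C a h
    constructor
    · rintro ⟨G, hG⟩
      refine ⟨trivial, ?_⟩
      have hG' : E _ := hG
      rw [e] at hG'
      exact hG'
    · rintro ⟨-, hE⟩
      refine ⟨0, ?_⟩
      show E _
      rw [e]
      exact hE
  | reject =>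
    intro l g g' L h
    constructor
    · rintro ⟨G, hG⟩
      exfalso
      apply hG.2.1
      simp [Lin.val]
    · rintro ⟨h1, -⟩
      exact absurd h1 id
  | mul f k next ih =>
    intro l g g' L h
    have e := ih (l + 1) _ _ (L - 1) (h.update (f.val (Sum.elim (triple A B C) a) l g *
      k.val (Sum.elim (triple A B C) a) l g))
    constructor
    · rintro ⟨G, hG⟩
      obtain ⟨h1, h2⟩ := hG
      rw [trL_val A B C a h, trL_val A B C a h] at h2
      have h3 := e.1 ⟨G, h2⟩
      exact ⟨⟨h1, h3.1⟩, h3.2⟩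
    · rintro ⟨⟨h1, h2⟩, h3⟩
      obtain ⟨G, hG⟩ := e.2 ⟨h2, h3⟩
      refine ⟨G, h1, ?_⟩
      rw [trL_val A B C a h, trL_val A B C a h]
      exact hG
  | div f k next ih =>
    intro l g g' L h
    have e := ih (l + 1) _ _ (L - 1) (h.update (f.val (Sum.elim (triple A B C) a) l g /
      k.val (Sum.elim (triple A B C) a) l g))
    constructor
    · rintro ⟨G, hG⟩
      obtain ⟨h1, h0, h2⟩ := hG
      rw [trL_val A B C a h] at h0
      rw [trL_val A B C a h, trL_val A B C a h] at h2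
      have h3 := e.1 ⟨G, h2⟩
      exact ⟨⟨h1, h0, h3.1⟩, h3.2⟩
    · rintro ⟨⟨h1, h0, h2⟩, h3⟩
      obtain ⟨G, hG⟩ := e.2 ⟨h2, h3⟩
      refine ⟨G, h1, ?_, ?_⟩
      · rw [trL_val A B C a h]
        exact h0
      · rw [trL_val A B C a h, trL_val A B C a h]
        exact hG
  | guess next ih =>
    intro l g g' L h
    constructor
    · rintro ⟨G, hG⟩
      obtain ⟨h1, v, h2⟩ := hG
      have h3 := (ih (l + 1) _ _ L (h.update v)).1 ⟨_, h2⟩
      exact ⟨⟨v, h3.1⟩, h3.2⟩
    · rintro ⟨⟨v, h2⟩, h3⟩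
      obtain ⟨G, hG⟩ := (ih (l + 1) _ _ L (h.update v)).2 ⟨h2, h3⟩
      exact ⟨G + 1, Nat.succ_pos _, v, hG⟩
  | test f yes no ihy ihn =>
    intro l g g' L h
    have ey := ihy l g g' L h
    have en := ihn l g g' L h
    constructor
    · rintro ⟨G, hG⟩
      rcases hG with ⟨h1, h2⟩ | ⟨h1, h2⟩
      · rw [trL_val A B C a h] at h1
        have h3 := ey.1 ⟨G, h2⟩
        exact ⟨Or.inl ⟨h1, h3.1⟩, h3.2⟩
      · rw [trL_val A B C a h] at h1
        have h3 := en.1 ⟨G, h2⟩
        exact ⟨Or.inr ⟨h1, h3.1⟩, h3.2⟩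
    · rintro ⟨h1 | h1, h3⟩
      · obtain ⟨G, hG⟩ := ey.2 ⟨h1.2, h3⟩
        refine ⟨G, Or.inl ⟨?_, hG⟩⟩
        rw [trL_val A B C a h]
        exact h1.1
      · obtain ⟨G, hG⟩ := en.2 ⟨h1.2, h3⟩
        refine ⟨G, Or.inr ⟨?_, hG⟩⟩
        rw [trL_val A B C a h]
        exact h1.1
  | choose r next ih =>
    intro l g g' L h
    constructor
    · rintro ⟨G, hG⟩
      obtain ⟨i, hi⟩ := hG
      have h3 := (ih i l g g' L h).1 ⟨G, hi⟩
      exact ⟨⟨i, h3.1⟩, h3.2⟩
    · rintro ⟨⟨i, hi⟩, h3⟩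
      obtain ⟨G, hG⟩ := (ih i l g g' L h).2 ⟨hi, h3⟩
      exact ⟨G, i, hG⟩

lemma askN_conv {A B : Matrix (Fin n) (Fin n) K} {E : Matrix (Fin n) (Fin n) K → Prop}
    {t : QTree K n} {L : ℕ} (N : ℕ) :
    ∀ (l : ℕ) (g : ℕ → K) (G : ℕ), (askN N t).CanOutput A B E l g L G →
      ∃ (g' : ℕ → K) (G' : ℕ), (∀ s < l, g' s = g s) ∧ t.CanOutput A B E (l + N) g' L G' := by
  induction N with
  | zero =>
    intro l g G h
    exact ⟨g, G, fun _ _ => rfl, h⟩
  | succ N ih =>
    intro l g G h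
    obtain ⟨-, v, h2⟩ := h
    obtain ⟨g', G', h3, h4⟩ := ih (l + 1) _ _ h2
    refine ⟨g', G', fun s hs => ?_, by rwa [show l + (N + 1) = l + 1 + N by omega]⟩
    rw [h3 s (by omega), Function.update_of_ne (by omega)]

/-- The possible outputs of the translation are the accepted matrices. -/
theorem outputs_iff (A B C : Matrix (Fin n) (Fin n) K) (a : Fin Q → K) (a' : ℕ → K)
    (ha : ∀ s : Fin Q, a' s = a s) (t : NTree K (Pos3 n ⊕ Fin Q)) (L : ℕ) :
    C ∈ Pool.Agent.W966.Vf.Outputs (askN (n * n) (trT t)) A B Q a' L ↔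
      t.Accepts (Sum.elim (triple A B C) a) L := by
  constructor
  · rintro ⟨G, hG⟩
    obtain ⟨g', G', h1, h2⟩ := askN_conv (n * n) Q a' G hG
    let C' : Matrix (Fin n) (Fin n) K := Matrix.of fun i j => g' (slot n Q (i, j))
    have hF : Fits C' a 0 0 g' :=
      ⟨fun s => by rw [h1 s s.2, ha], fun v => rfl, fun s hs => absurd hs (Nat.not_lt_zero s)⟩
    obtain ⟨h3, h4⟩ := (can_iff A B C' a (fun C' => C' = C) t 0 0 g' L hF).1 ⟨G', h2⟩
    rw [h4] at h3
    exact h3
  · intro h
    let g' : ℕ → K := fun s => if h : s < Q then a ⟨s, h⟩ else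
      if h : s - Q < n * n then C (finProdFinEquiv.symm ⟨s - Q, h⟩).1
        (finProdFinEquiv.symm ⟨s - Q, h⟩).2 else a' s
    have hF : Fits C a 0 0 g' := by
      refine ⟨fun s => dif_pos s.2, fun v => ?_, fun s hs => absurd hs (Nat.not_lt_zero s)⟩
      have h2 : ¬ (slot n Q v < Q) := by unfold slot; omega
      have h3 : slot n Q v - Q < n * n := by
        unfold slot
        have := (finProdFinEquiv v).2
        omega
      show (if h : slot n Q v < Q then _ else _) = _
      rw [dif_neg h2, dif_pos h3]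
      have h4 : (⟨slot n Q v - Q, h3⟩ : Fin (n * n)) = finProdFinEquiv v :=
        Fin.ext (by simp [slot])
      rw [h4, Equiv.symm_apply_apply]
    obtain ⟨G, hG⟩ := (can_iff A B C a (fun C' => C' = C) t 0 0 g' L hF).2 ⟨h, rfl⟩
    refine ⟨G + n * n, askN_can g' (n * n) Q a' (fun s hs => ?_) hG⟩
    rcases hs with hs | hs
    · show (if h : s < Q then _ else _) = _
      rw [dif_pos hs]
      exact (ha ⟨s, hs⟩).symm
    · show (if h : s < Q then _ else _) = _
      rw [dif_neg (by omega), dif_neg (by omega)]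

end tr

/-- **The exponent bound with advice.** -/
theorem omega_le_of_advised {K : Type} [Field K] [IsAlgClosed K] [CharZero K] {n m Q M L : ℕ}
    {t : NTree K (Pos3 n ⊕ Fin Q)} (h : AdvisedVerifies Q M t L) (hm0 : 0 < m) (hm : m ≤ n)
    (hQ : Q < (n - m + 1) ^ 2) : (m : ℝ) ^ Pool.Agent.W956.KF.omega K ≤ 2 * L := by
  rw [Pool.Agent.W956.KF.omega_eq, omegaMM_eq]
  refine Pool.Agent.W966.Vf.gen_bound (K₀ := n ^ 2) (M := M) (Q := Q)
    (askN (n * n) (trT t)) ?_ hm0 hm (by omega)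
  intro p hp
  obtain ⟨A, B, h1, a, h2, 𝒞, h3⟩ := h p hp
  let a' : ℕ → K := fun s => if h : s < Q then a ⟨s, h⟩ else 0
  have ha : ∀ s : Fin Q, a' s = a s := fun s => dif_pos s.2
  refine ⟨A, B, h1, a', 𝒞, fun C hC => ?_, A * B, (outputs_iff A B _ a a' ha t L).2 h2, ?_⟩
  · obtain ⟨i, hi⟩ := h3 C ((outputs_iff A B C a a' ha t L).1 hC)
    refine ⟨i, ?_⟩
    subst hi
    unfold AgreeIn
    have e : ∀ (s : Finset (Fin n × Fin n)), (∀ v, v ∈ s) → n ^ 2 ≤ s.card := by
      intro s hs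
      rw [Finset.eq_univ_of_forall hs, Finset.card_univ, Fintype.card_prod, Fintype.card_fin,
        pow_two]
    exact e _ fun v => by simp
  · intro i S hS hv v hvS
    exact (hv v hvS).symm

section growth

/-- Ignore the advice. -/
def liftL {K ι : Type} [Field K] (Q : ℕ) (f : LF K ι) : LF K (ι ⊕ Fin Q) :=
  ⟨f.c, Sum.elim f.x 0, f.r⟩

/-- Ignore the advice. -/
def liftT {K ι : Type} [Field K] (Q : ℕ) : NTree K ι → NTree K (ι ⊕ Fin Q)
  | .accept => .accept
  | .reject => .reject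
  | .mul f h next => .mul (liftL Q f) (liftL Q h) (liftT Q next)
  | .div f h next => .div (liftL Q f) (liftL Q h) (liftT Q next)
  | .guess next => .guess (liftT Q next)
  | .test f yes no => .test (liftL Q f) (liftT Q yes) (liftT Q no)
  | .choose m next => .choose m fun i => liftT Q (next i)

lemma liftL_val {K ι : Type} [Field K] [Fintype ι] {Q : ℕ} (x : ι → K) (a : Fin Q → K)
    (f : LF K ι) (l : ℕ) (g : ℕ → K) : (liftL Q f).val (Sum.elim x a) l g = f.val x l g := by
  simp [liftL, LF.val]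

lemma liftT_acc {K ι : Type} [Field K] [Fintype ι] {Q : ℕ} (x : ι → K) (a : Fin Q → K)
    (t : NTree K ι) : ∀ (l : ℕ) (g : ℕ → K) (L : ℕ),
      (liftT Q t).Acc (Sum.elim x a) l g L ↔ t.Acc x l g L := by
  induction t with
  | accept => intro l g L; exact Iff.rfl
  | reject => intro l g L; exact Iff.rfl
  | mul f h next ih =>
    intro l g L
    simp only [liftT, NTree.Acc, liftL_val, ih]
  | div f h next ih =>
    intro l g L
    simp only [liftT, NTree.Acc, liftL_val, ih]
  | guess next ih =>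
    intro l g L
    simp only [liftT, NTree.Acc, ih]
  | test f yes no ihy ihn =>
    intro l g L
    simp only [liftT, NTree.Acc, liftL_val, ihy, ihn]
  | choose r next ih =>
    intro l g L
    simp only [liftT, NTree.Acc, ih]

lemma Verifies.advised {K : Type} [Field K] [Infinite K] {m L : ℕ} {t : NTree K (Pos3 m)}
    (h : Verifies t L) (Q : ℕ) : AdvisedVerifies Q 1 (liftT Q t) L := by
  intro p hp
  obtain ⟨A, B, h1, h2, 𝒞, h3⟩ := h.weak p hp
  exact ⟨A, B, h1, 0, (liftT_acc _ _ t 0 0 L).2 h2, 𝒞, fun C hC =>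
    h3 C ((liftT_acc _ _ t 0 0 L).1 hC)⟩

/-- The least `L` such that some procedure weakly verifies products of `m × m` matrices over `K` with
`L` multiplications and divisions, with lists of some length and at most `(1 - ε) m ^ 2` pieces of
advice. -/
noncomputable def advCost (K : Type) [Field K] (ε : ℝ) (m : ℕ) : ℕ :=
  sInf {L | ∃ (Q M : ℕ) (t : NTree K (Pos3 m ⊕ Fin Q)), (Q : ℝ) ≤ (1 - ε) * (m : ℝ) ^ 2 ∧
    AdvisedVerifies Q M t L}

theorem advCost_le (K : Type) [Field K] [Infinite K] {ε : ℝ} (hε : ε ≤ 1) (m : ℕ) :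
    advCost K ε m ≤ verCost K m := by
  obtain ⟨t, ht⟩ := verCost_mem K m
  refine Nat.sInf_le ⟨0, 1, liftT 0 t, ?_, ht.advised 0⟩
  have : 0 ≤ 1 - ε := by linarith
  rw [Nat.cast_zero]
  positivity

theorem omega_nonneg (K : Type) [Field K] : 0 ≤ Pool.Agent.W956.KF.omega K := by
  rw [Pool.Agent.W956.KF.omega_eq]
  exact Pool.Agent.H826R3.SM.omega_nonneg

theorem omega_le_advCost (K : Type) [Field K] [IsAlgClosed K] [CharZero K] {ε : ℝ} (hε : 0 < ε)
    (hε1 : ε ≤ 1) {n : ℕ} (hn : 0 < n) :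
    (n : ℝ) ^ Pool.Agent.W956.KF.omega K ≤
      2 * (2 / ε) ^ Pool.Agent.W956.KF.omega K * advCost K ε n := by
  obtain ⟨t₀, ht₀⟩ := verCost_mem K n
  obtain ⟨Q, M, t, hQ, ht⟩ := Nat.sInf_mem (s := {L | ∃ (Q M : ℕ)
    (t : NTree K (Pos3 n ⊕ Fin Q)), (Q : ℝ) ≤ (1 - ε) * (n : ℝ) ^ 2 ∧ AdvisedVerifies Q M t L})
    ⟨_, 0, 1, liftT 0 t₀, by
      have : 0 ≤ 1 - ε := by linarith
      rw [Nat.cast_zero]
      positivity, ht₀.advised 0⟩
  have hn0 : (0 : ℝ) < n := by exact_mod_cast hn
  obtain ⟨m, hm⟩ : ∃ m, ⌈ε * n / 2⌉₊ = m := ⟨_, rfl⟩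
  have h1 : ε * n / 2 ≤ m := by rw [← hm]; exact Nat.le_ceil _
  have h2 : (m : ℝ) < ε * n / 2 + 1 := by rw [← hm]; exact Nat.ceil_lt_add_one (by positivity)
  have hm0 : 0 < m := by
    rw [← hm]
    exact Nat.ceil_pos.2 (by positivity)
  have hmn : m ≤ n := by
    rw [← hm]
    refine Nat.ceil_le.2 ?_
    nlinarith
  have hQ' : Q < (n - m + 1) ^ 2 := by
    have h3 : ((n - m + 1 : ℕ) : ℝ) = n - m + 1 := by
      push_cast [Nat.cast_sub hmn]
      ring
    have h4 : (n : ℝ) * (1 - ε / 2) < ((n - m + 1 : ℕ) : ℝ) := by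
      rw [h3]
      nlinarith
    have h5 : 0 ≤ (n : ℝ) * (1 - ε / 2) := by
      have : 0 ≤ 1 - ε / 2 := by linarith
      positivity
    have h6 : ((n : ℝ) * (1 - ε / 2)) ^ 2 < ((n - m + 1 : ℕ) : ℝ) ^ 2 := by gcongr
    have h7 : (Q : ℝ) < ((n - m + 1 : ℕ) : ℝ) ^ 2 := by
      refine lt_of_le_of_lt hQ (lt_of_le_of_lt ?_ h6)
      have : ((n : ℝ) * (1 - ε / 2)) ^ 2 = (1 - ε) * (n : ℝ) ^ 2 + (ε / 2 * n) ^ 2 := by ring
      rw [this]
      nlinarith [sq_nonneg (ε / 2 * n)]
    exact_mod_cast h7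
  have key := omega_le_of_advised ht hm0 hmn hQ'
  have hL : advCost K ε n = sInf {L | ∃ (Q M : ℕ) (t : NTree K (Pos3 n ⊕ Fin Q)),
    (Q : ℝ) ≤ (1 - ε) * (n : ℝ) ^ 2 ∧ AdvisedVerifies Q M t L} := rfl
  rw [← hL] at key
  have h8 : (n : ℝ) ≤ (2 / ε) * m := by
    rw [div_mul_eq_mul_div, le_div_iff₀ hε]
    linarith
  calc (n : ℝ) ^ Pool.Agent.W956.KF.omega K
      ≤ ((2 / ε) * m) ^ Pool.Agent.W956.KF.omega K :=
        Real.rpow_le_rpow hn0.le h8 (omega_nonneg K)
    _ = (2 / ε) ^ Pool.Agent.W956.KF.omega K * (m : ℝ) ^ Pool.Agent.W956.KF.omega K :=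
        Real.mul_rpow (by positivity) (Nat.cast_nonneg m)
    _ ≤ (2 / ε) ^ Pool.Agent.W956.KF.omega K * (2 * advCost K ε n) := by
        refine mul_le_mul_of_nonneg_left key ?_
        positivity
    _ = _ := by ring

/-- With `m ^ 2` pieces of advice no multiplication is needed. -/
theorem advised_all (K : Type) [Field K] [Infinite K] (m : ℕ) :
    ∃ t : NTree K (Pos3 m ⊕ Fin (m * m)), AdvisedVerifies (m * m) 1 t 0 := by
  classical
  let fT : Fin m × Fin m → LF K (Pos3 m ⊕ Fin (m * m)) := fun v =>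
    ⟨0, Sum.elim (Sum.elim 0 (Pi.single v 1)) (Pi.single (finProdFinEquiv v) (-1)), 0⟩
  have key : ∀ (A B C : Matrix (Fin m) (Fin m) K) (a : Fin (m * m) → K),
      (prods [] (tests (Finset.univ.toList.map fT))).Accepts (Sum.elim (triple A B C) a) 0 ↔
        ∀ v, C v.1 v.2 = a (finProdFinEquiv v) := by
    intro A B C a
    have h1 := accepts_iff (Sum.elim (triple A B C) a) [] (Finset.univ.toList.map fT) 0
      (by intro i hi; exact absurd hi (Nat.not_lt_zero i))
    rw [List.length_nil] at h1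
    rw [h1]
    have hT : ∀ v : Fin m × Fin m, (fT v).val (Sum.elim (triple A B C) a) 0 0 =
        C v.1 v.2 - a (finProdFinEquiv v) := by
      intro v
      unfold LF.val
      simp only [fT, triple, Fintype.sum_sum_type, Sum.elim_inl, Sum.elim_inr, Pi.zero_apply,
        map_zero, zero_mul, Finset.sum_const_zero, zero_add, Algebra.algebraMap_self,
        RingHom.id_apply, Finset.range_zero, Finset.sum_empty, add_zero]
      rw [Finset.sum_eq_single v (fun w _ hw => by rw [Pi.single_eq_of_ne hw, zero_mul])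
        (fun h => absurd (Finset.mem_univ _) h), Pi.single_eq_same, one_mul,
        Finset.sum_eq_single (finProdFinEquiv v)
          (fun w _ hw => by rw [Pi.single_eq_of_ne hw, zero_mul])
          (fun h => absurd (Finset.mem_univ _) h), Pi.single_eq_same]
      ring
    constructor
    · intro h v
      have := h (fT v) (List.mem_map.2 ⟨v, by simp, rfl⟩)
      rw [hT, sub_eq_zero] at this
      exact this
    · intro h f hf
      obtain ⟨v, -, rfl⟩ := List.mem_map.1 hf
      rw [hT, h v, sub_self]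
  refine ⟨prods [] (tests (Finset.univ.toList.map fT)), fun p hp => ?_⟩
  obtain ⟨x, hx⟩ : ∃ x : Pos2 m → K, eval x p ≠ 0 := by
    by_contra hcon
    push Not at hcon
    exact hp (MvPolynomial.funext fun x => by rw [hcon x, map_zero])
  let A : Matrix (Fin m) (Fin m) K := Matrix.of fun i j => x (Sum.inl (i, j))
  let B : Matrix (Fin m) (Fin m) K := Matrix.of fun i j => x (Sum.inr (i, j))
  have hx' : pair A B = x := by
    funext e
    rcases e with e | e <;> rfl
  refine ⟨A, B, by rw [hx']; exact hx, fun s => (A * B) (finProdFinEquiv.symm s).1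
    (finProdFinEquiv.symm s).2, (key _ _ _ _).2 fun v => by
      rw [Equiv.symm_apply_apply], fun _ => A * B, fun C hC => ⟨0, ?_⟩⟩
  ext i j
  have := (key _ _ _ _).1 hC (i, j)
  rw [Equiv.symm_apply_apply] at this
  exact this

end growth

end Pool.Agent.V11190.VM
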