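import Pool.Agent.W966.Vg.Parts

/-!
# Verification of polynomial maps: approximate computations over power series

`main_A` and `approx_of_dense` are `main_G` and `gen` of the library `Pool.Agent.W966.Vg` (helper966)
with the approximate computation itself as the conclusion.
-/

set_option autoImplicit false

namespace Pool.Agent.V11190.VM

open MvPolynomial Module Filter Pool.Agent.W966.Vf Pool.Agent.W966.Vg

/-- An approximate computation of the shifted polynomials with `M` multiplications. -/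
def Approx (K ι V : Type) [Field K] [Fintype ι] (M : ℕ) (f : V → MvPolynomial ι K) : Prop :=
  ∃ (Ω : Type) (_ : Field Ω) (_ : Algebra K Ω) (n : ℕ) (b : ι → Ω)
    (G F : V → MvPolynomial ι (PowerSeries Ω)),
    NSComp (PowerSeries Ω) ι V M G ∧ (∀ v, G v = C (PowerSeries.X ^ n) * F v) ∧
    ∀ v, MvPolynomial.map PowerSeries.constantCoeff (F v) =
      aeval (fun i => X i + C (b i) : ι → MvPolynomial ι Ω) (f v)

lemma Approx.mono {K ι V : Type} [Field K] [Fintype ι] {M M' : ℕ} {f : V → MvPolynomial ι K}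
    (h : Approx K ι V M f) (hM : M ≤ M') : Approx K ι V M' f := by
  obtain ⟨Ω, i1, i2, n, b, G, F, h1, h2, h3⟩ := h
  exact ⟨Ω, i1, i2, n, b, G, F, NSComp.mono hM h1, h2, h3⟩

/-- From the approximate computation to the closure. -/
theorem Approx.closure {K ι V : Type} [Field K] [CharZero K] [Fintype ι] [Fintype V] {M : ℕ}
    {f : V → MvPolynomial ι K} (h : Approx K ι V M f) : InClosure {g | NSComp K ι V M g} f := by
  obtain ⟨Ω, i1, i2, n, b, G, F, h1, h2, h3⟩ := h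
  exact finish Pool.Agent.W366.VG.bas Pool.Agent.W366.VG.shift Pool.Agent.W320.VG.clos M n f b G F
    h1 h2 h3

theorem main_A {K F : Type} [Field K] [CharZero K] [Field F] [IsAlgClosed F] [Algebra K F]
    {ι σ V : Type} [Fintype ι] [Fintype σ] [Fintype V] {L M d : ℕ} {J₂ J₃ : Type}
    [Fintype J₂] [Fintype J₃] (α β δ : Fin L → AF K (ι ⊕ Fin 0 ⊕ σ))
    (lin : J₂ → AF K (ι ⊕ Fin 0 ⊕ σ)) (ne : J₃ → AF K (ι ⊕ Fin 0 ⊕ σ))
    (o : V → AF K (ι ⊕ Fin 0 ⊕ σ)) (x : ι → F) (hx : AlgebraicIndependent K x) (a : Fin 0 → F)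
    (s₀ : σ → F) (h0 : Sat α β δ lin ne (pnt x a s₀)) (𝒞 : Fin M → V → F)
    (sound : ∀ s, Sat α β δ lin ne (pnt x a s) → ∃ i, ∀ v, (o v).val (pnt x a s) = 𝒞 i v)
    (f : V → MvPolynomial ι K) (hd : ∀ v, (f v).totalDegree ≤ d)
    (hf : ∀ v, (o v).val (pnt x a s₀) = aeval x (f v)) :
    Approx K ι V (L * (d * (d - 1) / 2)) f := by
  classical
  obtain ⟨T, Ω₁, _, _, w₀, hT, hiso, hout⟩ := component α β δ lin ne o x a s₀ h0 𝒞 sound
  obtain ⟨Ω, _, _, _, _, w₁, γ, g, e, c, hAI, hg, heq, hval⟩ := solve (K := K) x a T w₀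
    (Sum.elim α fun _ => 0 : Fin L ⊕ J₂ → AF K (ι ⊕ Fin 0 ⊕ σ))
    (Sum.elim β fun _ => 0 : Fin L ⊕ J₂ → AF K (ι ⊕ Fin 0 ⊕ σ))
    (Sum.elim δ lin : Fin L ⊕ J₂ → AF K (ι ⊕ Fin 0 ⊕ σ)) hT hiso
  have hval' : ∀ v, PowerSeries.constantCoeff ((o v).val (pt x a T w₁ g)) =
      algebraMap F Ω (aeval x (f v)) := fun v => hval (o v) _ (by rw [hout, hf])
  obtain ⟨Ω', _, _, _, u, lam, mu, W, hu, hKΩ', hW, hTay⟩ := Pool.Agent.W975.VG.tay K F Ω ι σ
    (Fin L ⊕ J₂) x a T w₁ g γ e _ _ _ c hx hAI hg heq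
  obtain ⟨G, hG, hGc⟩ := Pool.Agent.W613.VG.rec_main K Ω Ω' ι (ι ⊕ Fin 0 ⊕ σ) V J₂ L d e _ _ lam
    mu u W o (fun v => (o v).val (pt x a T w₁ g)) hKΩ' (fun _ => rfl) hW
  have hF := fun v => Pool.Agent.W320.VG.cmp Ω Ω' ι u (2 * d * e) (G v) _ hu (hG v)
  choose Fv hFG hFv using hF
  have hred : ∀ v, MvPolynomial.map PowerSeries.constantCoeff (Fv v) =
      aeval (fun i => X i + C (algebraMap F Ω (x i)) : ι → MvPolynomial ι Ω) (f v) := by
    intro v
    apply hu
    rw [hFv v, map_add, map_sum, const_map, hval' v, hTay (o v) (f v) d (hd v) (hval' v)]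
    exact shift_u hKΩ' (fun i => algebraMap F Ω (x i)) u (f v)
  exact ⟨Ω, inferInstance, inferInstance, 2 * d * e, fun i => algebraMap F Ω (x i), G, Fv, hGc,
    hFG, hred⟩

theorem approx_of_dense {K ι V : Type} [Field K] [IsAlgClosed K] [CharZero K] [Fintype ι]
    [Fintype V]
    {L M d : ℕ} (t : NTree K (ι ⊕ V)) (f : V → MvPolynomial ι K)
    (hd : ∀ v, (f v).totalDegree ≤ d)
    (H : ∀ p : MvPolynomial ι K, p ≠ 0 → ∃ x : ι → K, eval x p ≠ 0 ∧
      t.Accepts (Sum.elim x fun v => eval x (f v)) L ∧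
      ∃ 𝒞 : Fin M → V → K, ∀ y : V → K, t.Accepts (Sum.elim x y) L → ∃ i, y = 𝒞 i) :
    Approx K ι V (L * (d * (d - 1) / 2)) f := by
  classical
  obtain ⟨I, 𝒰, x, hx, hindep⟩ := exists_generic_dense (K := K) (κ := ι)
    (fun x => t.Accepts (Sum.elim x fun v => eval x (f v)) L ∧
      ∃ 𝒞 : Fin M → V → K, ∀ y : V → K, t.Accepts (Sum.elim x y) L → ∃ i, y = 𝒞 i) H
  choose hacc 𝒞 h𝒞 using hx
  have hpath : ∀ S, ∃ p ∈ paths t, p.muls ≤ L ∧ ∃ g' : ℕ → K,
      p.Ok (Sum.elim (x S) fun v => eval (x S) (f v)) g' 0 := by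
    intro S
    obtain ⟨p, hp, hm, g', -, hok⟩ := path_of_acc _ t 0 0 L (hacc S)
    exact ⟨p, hp, hm, g', hok⟩
  obtain ⟨p, hp, hpS⟩ := ultra_const (𝒰 := 𝒰) (paths t) (paths_finite t)
    (fun S p => p.muls ≤ L ∧ ∃ g' : ℕ → K,
      p.Ok (Sum.elim (x S) fun v => eval (x S) (f v)) g' 0) (Eventually.of_forall hpath)
  have hmuls : p.muls ≤ L := by
    obtain ⟨S, hS⟩ := hpS.exists
    exact hS.1
  have hg : ∀ S, ∃ g' : ℕ → K, (p.muls ≤ L ∧ ∃ g' : ℕ → K,
      p.Ok (Sum.elim (x S) fun v => eval (x S) (f v)) g' 0) →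
        p.Ok (Sum.elim (x S) fun v => eval (x S) (f v)) g' 0 := by
    intro S
    by_cases h : ∃ g' : ℕ → K, p.Ok (Sum.elim (x S) fun v => eval (x S) (f v)) g' 0
    · obtain ⟨g', hg'⟩ := h
      exact ⟨g', fun _ => hg'⟩
    · exact ⟨0, fun h' => absurd h'.2 h⟩
  choose g hg using hg
  have hgS : ∀ᶠ S in (𝒰 : Filter I),
      p.Ok (Sum.elim (x S) fun v => eval (x S) (f v)) (g S) 0 := hpS.mono fun S hS => hg S hS
  obtain ⟨N', hN'⟩ : ∃ N', p.fin 0 = N' := ⟨_, rfl⟩
  let xF : ι → UP K 𝒰 := fun e => cu 𝒰 (fun S => x S e)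
  let aF : Fin 0 → UP K 𝒰 := fun t => t.elim0
  have hval : ∀ (yy : I → V → K) (gg : I → ℕ → K) (f : LF K (ι ⊕ V)),
      (toAF N' f).val (pnt xF aF (Sum.elim (fun v => cu 𝒰 (fun S => yy S v))
        (fun s : Fin N' => cu 𝒰 (fun S => gg S s)))) =
        cu 𝒰 (fun S => f.val (Sum.elim (x S) (yy S)) N' (gg S)) := by
    intro yy gg f
    have e2 : pnt xF aF (Sum.elim (fun v => cu 𝒰 (fun S => yy S v))
        (fun s : Fin N' => cu 𝒰 (fun S => gg S s))) =
        fun i => cu 𝒰 (fun S => pnt (x S) (fun t : Fin 0 => (t.elim0 : K))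
          (Sum.elim (yy S) (fun s : Fin N' => gg S s)) i) := by
      funext i
      rcases i with i | i | i | i
      · rfl
      · exact i.elim0
      · rfl
      · rfl
    rw [e2, los_val (𝒰 := 𝒰) (toAF N' f)
      (fun i S => pnt (x S) (fun t : Fin 0 => (t.elim0 : K))
          (Sum.elim (yy S) (fun s : Fin N' => gg S s)) i)]
    congr 1
    funext S
    exact toAF_val N' f (x S) _ (yy S) (gg S)
  let α : Fin (p.msys 0).length → AF K (ι ⊕ Fin 0 ⊕ (V ⊕ Fin N')) :=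
    fun j => toAF N' ((p.msys 0).get j).1
  let β : Fin (p.msys 0).length → AF K (ι ⊕ Fin 0 ⊕ (V ⊕ Fin N')) :=
    fun j => toAF N' ((p.msys 0).get j).2.1
  let δ : Fin (p.msys 0).length → AF K (ι ⊕ Fin 0 ⊕ (V ⊕ Fin N')) :=
    fun j => toAF N' ((p.msys 0).get j).2.2
  let lin : Fin (p.lsys 0).length → AF K (ι ⊕ Fin 0 ⊕ (V ⊕ Fin N')) :=
    fun j => toAF N' ((p.lsys 0).get j)
  let ne : Fin (p.nsys 0).length → AF K (ι ⊕ Fin 0 ⊕ (V ⊕ Fin N')) :=
    fun j => toAF N' ((p.nsys 0).get j)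
  have hlist : ∀ {α : Type} (l : List α) (P : α → Prop),
      (∀ x ∈ l, P x) ↔ ∀ j : Fin l.length, P (l.get j) := by
    intro α l P
    refine ⟨fun h j => h _ (List.get_mem l j), fun h x hx => ?_⟩
    obtain ⟨j, hj⟩ := List.get_of_mem hx
    rw [← hj]
    exact h j
  have hsat : ∀ (yy : I → V → K) (gg : I → ℕ → K),
      (Sat α β δ lin ne (pnt xF aF (Sum.elim (fun v => cu 𝒰 (fun S => yy S v))
        (fun s : Fin N' => cu 𝒰 (fun S => gg S s)))) ↔
        ∀ᶠ S in (𝒰 : Filter I), p.Ok (Sum.elim (x S) (yy S)) (gg S) 0) := by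
    intro yy gg
    have e1 : ∀ S, p.Ok (Sum.elim (x S) (yy S)) (gg S) 0 ↔
        (∀ j : Fin (p.msys 0).length,
          ((p.msys 0).get j).1.val (Sum.elim (x S) (yy S)) N' (gg S) *
          ((p.msys 0).get j).2.1.val (Sum.elim (x S) (yy S)) N' (gg S) =
          ((p.msys 0).get j).2.2.val (Sum.elim (x S) (yy S)) N' (gg S)) ∧
        (∀ j : Fin (p.lsys 0).length,
          ((p.lsys 0).get j).val (Sum.elim (x S) (yy S)) N' (gg S) = 0) ∧
        (∀ j : Fin (p.nsys 0).length,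
          ((p.nsys 0).get j).val (Sum.elim (x S) (yy S)) N' (gg S) ≠ 0) := by
      intro S
      rw [Path.ok_iff (Sum.elim (x S) (yy S)) (gg S) p 0 N' hN'.le, hlist, hlist, hlist]
    simp only [e1, Filter.eventually_and, Filter.eventually_all]
    constructor
    · intro h
      refine ⟨fun j => ?_, fun j => ?_, fun j => ?_⟩
      · have := h.mul j
        simp only [α, β, δ, hval yy gg, ← map_mul] at this
        exact cu_eq.mp this
      · have := h.lin j
        simp only [lin, hval yy gg] at this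
        exact cu_eq_zero.mp this
      · have := h.ne j
        simp only [ne, hval yy gg] at this
        exact cu_ne_zero.mp this
    · rintro ⟨h1, h2, h3⟩
      refine ⟨fun j => ?_, fun j => ?_, fun j => ?_⟩
      · simp only [α, β, δ, hval yy gg, ← map_mul]
        exact cu_eq.mpr (h1 j)
      · simp only [lin, hval yy gg]
        exact cu_eq_zero.mpr (h2 j)
      · simp only [ne, hval yy gg]
        exact cu_ne_zero.mpr (h3 j)
  let 𝒞F : Fin M → V → UP K 𝒰 := fun i v => cu 𝒰 (fun S => 𝒞 S i v)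
  have key := main_A (K := K) (F := UP K 𝒰) (M := M) (d := d)
    α β δ lin ne (fun v => outAF N' v) xF hindep aF
    (Sum.elim (fun v => cu 𝒰 (fun S => eval (x S) (f v)))
      (fun s : Fin N' => cu 𝒰 (fun S => g S s)))
    ((hsat (fun S v => eval (x S) (f v)) g).mpr hgS) 𝒞F
    (by
      intro s hs
      choose r hr using cu_surj (K := K) (𝒰 := 𝒰)
      let yy : I → V → K := fun S v => r (s (Sum.inl v)) S
      let gg : I → ℕ → K := fun S t => if h : t < N' then r (s (Sum.inr ⟨t, h⟩)) S else 0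
      have hgg' : ∀ S, ∀ t : Fin N', gg S t = r (s (Sum.inr t)) S := by
        intro S t
        simp only [gg, dif_pos t.2]
      have hs' : s = Sum.elim (fun v => cu 𝒰 (fun S => yy S v))
          (fun t : Fin N' => cu 𝒰 (fun S => gg S t)) := by
        funext t
        rcases t with v | t
        · exact (hr (s (Sum.inl v))).symm
        · simp only [Sum.elim_inr, hgg']
          exact (hr (s (Sum.inr t))).symm
      rw [hs'] at hs
      have h1 := (hsat yy gg).mp hs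
      have h2 : ∀ᶠ S in (𝒰 : Filter I), ∃ i ∈ (Set.univ : Set (Fin M)), yy S = 𝒞 S i := by
        filter_upwards [h1] with S hS
        have h3 : t.Accepts (Sum.elim (x S) (yy S)) L :=
          acc_of_path _ t 0 0 L p hp hmuls (gg S) (fun s hs => absurd hs (Nat.not_lt_zero s)) hS
        obtain ⟨i, hi⟩ := h𝒞 S _ h3
        exact ⟨i, Set.mem_univ _, hi⟩
      obtain ⟨i, -, hi⟩ := ultra_const (𝒰 := 𝒰) Set.univ Set.finite_univ _ h2
      refine ⟨i, fun v => ?_⟩
      rw [outAF_val, hs']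
      show cu 𝒰 (fun S => yy S v) = cu 𝒰 (fun S => 𝒞 S i v)
      refine cu_eq.mpr ?_
      filter_upwards [hi] with S hS
      rw [hS])
    f hd
    (by
      intro v
      rw [outAF_val]
      exact (cu_aeval x (f v)).symm)
  refine key.mono ?_
  rw [p.msys_length]
  exact Nat.mul_le_mul_right _ hmuls

end Pool.Agent.V11190.VM
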