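import Pool.Agent.V11190.VM.Approx
import Pool.Agent.W239.VF.Ad

/-!
# From approximate computations of the matrix product to the exponent
-/

set_option autoImplicit false

namespace Pool.Agent.V11190.VM

open MvPolynomial Pool.Agent.W966.Vg

section bil

variable {R ι : Type} [CommRing R] [Fintype ι]

/-- the constant coefficient of the first derivative -/
noncomputable def l1 (i : ι) (p : MvPolynomial ι R) : R := constantCoeff (pderiv i p)

/-- the constant coefficient of the second derivative -/
noncomputable def q2 (i j : ι) (p : MvPolynomial ι R) : R := constantCoeff (pderiv i (pderiv j p))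

lemma q2_add (i j : ι) (p q : MvPolynomial ι R) : q2 i j (p + q) = q2 i j p + q2 i j q := by
  simp [q2]

lemma q2_sum {κ : Type} (s : Finset κ) (i j : ι) (p : κ → MvPolynomial ι R) :
    q2 i j (∑ k ∈ s, p k) = ∑ k ∈ s, q2 i j (p k) := by
  simp [q2, map_sum]

lemma q2_C (i j : ι) (a : R) : q2 i j (C a : MvPolynomial ι R) = 0 := by
  simp [q2]

lemma q2_C_mul (i j : ι) (a : R) (p : MvPolynomial ι R) : q2 i j (C a * p) = a * q2 i j p := by
  simp [q2, pderiv_C_mul]

lemma q2_X (i j k : ι) : q2 i j (X k : MvPolynomial ι R) = 0 := by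
  classical
  unfold q2
  rw [pderiv_X]
  by_cases h : k = j
  · subst h
    rw [Pi.single_eq_same]
    simp
  · rw [Pi.single_eq_of_ne h]
    simp

lemma q2_mul (i j : ι) (p q : MvPolynomial ι R) :
    q2 i j (p * q) = constantCoeff p * q2 i j q + constantCoeff q * q2 i j p +
      (l1 i p * l1 j q + l1 j p * l1 i q) := by
  unfold q2 l1
  simp only [Derivation.leibniz, map_add, smul_eq_mul, map_mul]
  ring

/-- the value of a linear combination -/
lemma q2_val (i j : ι) (f : LF R ι) (l : ℕ) (g : ℕ → MvPolynomial ι R) :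
    q2 i j (f.val X l g) = ∑ s ∈ Finset.range l, f.r s * q2 i j (g s) := by
  unfold LF.val
  rw [q2_add, q2_add, q2_sum, q2_sum, algebraMap_eq, q2_C, zero_add,
    Finset.sum_eq_zero (fun k _ => by rw [q2_C_mul, q2_X, mul_zero]), zero_add]
  exact Finset.sum_congr rfl fun s _ => q2_C_mul _ _ _ _

/-- the bilinear form of the `s`-th product -/
noncomputable def Tm (a b : ℕ → LF R ι) (g : ℕ → MvPolynomial ι R) (i j : ι) (s : ℕ) : R :=
  l1 i ((a s).val X s g) * l1 j ((b s).val X s g) +
    l1 j ((a s).val X s g) * l1 i ((b s).val X s g)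

lemma q2_step {M : ℕ} (a b : ℕ → LF R ι) (g : ℕ → MvPolynomial ι R)
    (hg : ∀ r < M, g r = (a r).val X r g * (b r).val X r g) :
    ∀ r < M, ∃ c : ℕ → R, ∀ i j, q2 i j (g r) = ∑ s ∈ Finset.range M, c s * Tm a b g i j s := by
  intro r
  induction r using Nat.strong_induction_on with
  | _ r ih =>
    intro hr
    have ih' : ∀ s, ∃ c : ℕ → R, s < r → ∀ i j,
        q2 i j (g s) = ∑ t ∈ Finset.range M, c t * Tm a b g i j t := by
      intro s
      by_cases hs : s < r
      · obtain ⟨c, hc⟩ := ih s hs (hs.trans hr)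
        exact ⟨c, fun _ => hc⟩
      · exact ⟨0, fun h => absurd h hs⟩
    choose c hc using ih'
    set w : ℕ → R := fun s => constantCoeff ((a r).val X r g) * (b r).r s +
      constantCoeff ((b r).val X r g) * (a r).r s with hw
    refine ⟨fun t => ∑ s ∈ Finset.range r, w s * c s t + if t = r then 1 else 0, fun i j => ?_⟩
    rw [hg r hr, q2_mul, q2_val, q2_val, Finset.mul_sum, Finset.mul_sum, ← Finset.sum_add_distrib]
    have e1 : ∑ s ∈ Finset.range r, (constantCoeff ((a r).val X r g) * ((b r).r s * q2 i j (g s)) +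
        constantCoeff ((b r).val X r g) * ((a r).r s * q2 i j (g s))) =
        ∑ t ∈ Finset.range M, (∑ s ∈ Finset.range r, w s * c s t) * Tm a b g i j t := by
      simp only [Finset.sum_mul]
      rw [Finset.sum_comm]
      refine Finset.sum_congr rfl fun s hs => ?_
      rw [hc s (Finset.mem_range.mp hs) i j, hw]
      simp only [Finset.mul_sum]
      rw [← Finset.sum_add_distrib]
      refine Finset.sum_congr rfl fun t _ => ?_
      ring
    rw [e1]
    simp only [add_mul, Finset.sum_add_distrib]
    congr 1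
    simp only [ite_mul, one_mul, zero_mul]
    rw [Finset.sum_ite_eq' (Finset.range M) r, if_pos (Finset.mem_range.mpr hr)]
    rfl

/-- The second derivatives of the outputs of a computation with `M` multiplications. -/
theorem q2_out {V : Type} {M : ℕ} {G : V → MvPolynomial ι R} (h : NSComp R ι V M G) :
    ∃ (α β : Fin M → ι → R) (c : V → Fin M → R), ∀ v i j,
      q2 i j (G v) = ∑ s, c v s * (α s i * β s j + α s j * β s i) := by
  obtain ⟨a, b, o, g, h1, h2⟩ := h
  have h3 := q2_step a b g h1
  have h4 : ∀ s, ∃ c : ℕ → R, s < M → ∀ i j,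
      q2 i j (g s) = ∑ t ∈ Finset.range M, c t * Tm a b g i j t := by
    intro s
    by_cases hs : s < M
    · obtain ⟨c, hc⟩ := h3 s hs
      exact ⟨c, fun _ => hc⟩
    · exact ⟨0, fun h => absurd h hs⟩
  choose c hc using h4
  refine ⟨fun s i => l1 i ((a s).val X s g), fun s i => l1 i ((b s).val X s g),
    fun v t => ∑ s ∈ Finset.range M, (o v).r s * c s t, fun v i j => ?_⟩
  rw [h2 v, q2_val]
  rw [← Finset.sum_range (fun t => (∑ s ∈ Finset.range M, (o v).r s * c s t) *
    (l1 i ((a t).val X t g) * l1 j ((b t).val X t g) +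
      l1 j ((a t).val X t g) * l1 i ((b t).val X t g)))]
  simp only [Finset.sum_mul]
  rw [Finset.sum_comm]
  refine Finset.sum_congr rfl fun s hs => ?_
  rw [hc s (Finset.mem_range.mp hs) i j, Finset.mul_sum]
  refine Finset.sum_congr rfl fun t _ => ?_
  unfold Tm
  ring

end bil

/-- the entries of the product of two generic `m × m` matrices -/
noncomputable def mm (K : Type) [Field K] (m : ℕ) (v : Fin m × Fin m) :
    MvPolynomial ((Fin m × Fin m) ⊕ (Fin m × Fin m)) K :=
  ∑ k : Fin m, X (Sum.inl (v.1, k)) * X (Sum.inr (k, v.2))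

lemma mm_degree (K : Type) [Field K] (m : ℕ) (v : Fin m × Fin m) :
    (mm K m v).totalDegree ≤ 2 := by
  unfold mm
  refine (totalDegree_finsetSum _ _).trans (Finset.sup_le fun k _ => ?_)
  refine (totalDegree_mul _ _).trans ?_
  rw [totalDegree_X, totalDegree_X]

/-- the second derivatives of the shifted product -/
lemma q2_mm {K Ω : Type} [Field K] [Field Ω] [Algebra K Ω] {m : ℕ}
    (b : (Fin m × Fin m) ⊕ (Fin m × Fin m) → Ω) (i j j' k k' l : Fin m) :
    q2 (Sum.inl (i, j)) (Sum.inr (j', k))
      (aeval (fun i => X i + C (b i) : _ → MvPolynomial _ Ω) (mm K m (l, k'))) =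
      if j = j' ∧ k = k' ∧ l = i then 1 else 0 := by
  classical
  unfold mm
  rw [map_sum, q2_sum]
  have h : ∀ κ : Fin m, q2 (Sum.inl (i, j)) (Sum.inr (j', k))
      (aeval (fun i => X i + C (b i) : _ → MvPolynomial _ Ω)
        (X (Sum.inl (l, κ)) * X (Sum.inr (κ, k')) : MvPolynomial _ K)) =
      if l = i ∧ κ = j ∧ κ = j' ∧ k' = k then 1 else 0 := by
    intro κ
    rw [map_mul, aeval_X, aeval_X]
    unfold q2
    simp only [Derivation.leibniz, map_add, pderiv_C, pderiv_X, add_zero, smul_eq_mul, map_mul]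
    have e1 : ∀ (u v : (Fin m × Fin m) ⊕ (Fin m × Fin m)),
        (Pi.single u (1 : MvPolynomial ((Fin m × Fin m) ⊕ (Fin m × Fin m)) Ω) : _ → _) v =
          C (if v = u then 1 else 0) := by
      intro u v
      by_cases h : v = u
      · subst h; simp
      · rw [Pi.single_eq_of_ne h, if_neg h, map_zero]
    simp only [e1, pderiv_C, map_zero, mul_zero, zero_add, add_zero, constantCoeff_C]
    have e2 : ((Sum.inl (l, κ) : (Fin m × Fin m) ⊕ (Fin m × Fin m)) = Sum.inr (j', k)) = False := by
      simp
    have e3 : ((Sum.inr (κ, k') : (Fin m × Fin m) ⊕ (Fin m × Fin m)) = Sum.inl (i, j)) = False := by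
      simp
    simp only [e2, e3, if_false, Sum.inr.injEq, Sum.inl.injEq, Prod.mk.injEq]
    by_cases h1 : κ = j' <;> by_cases h2 : k' = k <;> by_cases h3 : l = i <;>
      by_cases h4 : κ = j <;> simp [h1, h2, h3, h4]
  rw [Finset.sum_congr rfl fun κ _ => h κ]
  by_cases hc : j = j' ∧ k = k' ∧ l = i
  · obtain ⟨rfl, rfl, rfl⟩ := hc
    rw [Finset.sum_eq_single j]
    · simp
    · intro κ _ hκ
      rw [if_neg]
      rintro ⟨-, h, -⟩
      exact hκ h
    · intro h
      exact absurd (Finset.mem_univ _) h
  · rw [if_neg hc]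
    refine Finset.sum_eq_zero fun κ _ => ?_
    rw [if_neg]
    rintro ⟨h1, h2, h3, h4⟩
    exact hc ⟨h2.symm.trans h3, h4.symm, h1⟩

/-- **An approximate computation with `M` multiplications bounds the exponent.** -/
theorem omega_le {K : Type} [Field K] [CharZero K] {m M : ℕ} (hm : 0 < m)
    (h : Approx K _ _ M (mm K m)) : (m : ℝ) ^ Pool.Agent.H515R2.MMR.omega ≤ 2 * M := by
  obtain ⟨Ω, _, _, n, b, G, F, h1, h2, h3⟩ := h
  have hΩ : CharZero Ω := charZero_of_injective_algebraMap (algebraMap K Ω).injective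
  obtain ⟨α, β, c, hq⟩ := q2_out h1
  have key := Pool.Agent.W239.VF.main Ω m (M + M) n
    (fun t i j => Fin.addCases (fun s => α s (Sum.inl (i, j))) (fun s => β s (Sum.inl (i, j))) t)
    (fun t j k => Fin.addCases (fun s => β s (Sum.inr (j, k))) (fun s => α s (Sum.inr (j, k))) t)
    (fun t k l => Fin.addCases (fun s => c (l, k) s) (fun s => c (l, k) s) t) hm
    (by
      intro i j j' k k' l d hd
      rw [Fin.sum_univ_add]
      simp only [Fin.addCases_left, Fin.addCases_right]
      rw [← Finset.sum_add_distrib]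
      have e1 : ∑ s : Fin M, (α s (Sum.inl (i, j)) * β s (Sum.inr (j', k)) * c (l, k') s +
          β s (Sum.inl (i, j)) * α s (Sum.inr (j', k)) * c (l, k') s) =
          PowerSeries.X ^ n * q2 (Sum.inl (i, j)) (Sum.inr (j', k)) (F (l, k')) := by
        rw [← q2_C_mul, ← h2, hq]
        exact Finset.sum_congr rfl fun s _ => by ring
      rw [e1, PowerSeries.coeff_X_pow_mul']
      have e2 : PowerSeries.constantCoeff (q2 (Sum.inl (i, j)) (Sum.inr (j', k)) (F (l, k'))) =
          if j = j' ∧ k = k' ∧ l = i then 1 else 0 := by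
        rw [← q2_mm (K := K) b i j j' k k' l, ← h3]
        unfold q2
        rw [pderiv_map, pderiv_map, constantCoeff_map]
      by_cases hdn : d = n
      · subst hdn
        rw [if_pos le_rfl, Nat.sub_self, PowerSeries.coeff_zero_eq_constantCoeff_apply, e2]
        simp
      · rw [if_neg (by omega), if_neg (fun h => hdn h.1)])
  refine key.trans (le_of_eq ?_)
  push_cast
  ring

end Pool.Agent.V11190.VM
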