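import Pool.Agent.H515R2.MMR.Rank
import Pool.Agent.W956.KF.Growth

/-!
# The exponent over an algebraically closed field of characteristic zero
-/

set_option autoImplicit false

namespace Pool.Agent.V11190.VM

theorem exists_hom_aux (K : Type) [Field K] [IsAlgClosed K] [CharZero K] (A : Type) [CommRing A]
    [Nontrivial A] [Algebra ℚ A] [Algebra.FiniteType ℚ A] : Nonempty (A →+* K) := by
  obtain ⟨M, hM⟩ := Ideal.exists_maximal A
  let _ : Field (A ⧸ M) := Ideal.Quotient.field M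
  have h2 : Algebra.FiniteType ℚ (A ⧸ M) :=
    Algebra.FiniteType.of_surjective (Ideal.Quotient.mkₐ ℚ M) (Ideal.Quotient.mkₐ_surjective ℚ M)
  have h3 : Module.Finite ℚ (A ⧸ M) := finite_of_finite_type_of_isJacobsonRing ℚ (A ⧸ M)
  have h4 : Algebra.IsAlgebraic ℚ (A ⧸ M) := Algebra.IsAlgebraic.of_finite ℚ (A ⧸ M)
  exact ⟨(IsAlgClosed.lift (M := K) (R := ℚ) (S := A ⧸ M)).toRingHom.comp
    (Ideal.Quotient.mk M)⟩

theorem exists_hom (K : Type) [Field K] [IsAlgClosed K] [CharZero K] {Ω : Type} [Field Ω]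
    [CharZero Ω] (s : Set Ω) (hs : s.Finite) : Nonempty ((Algebra.adjoin ℚ s) →+* K) := by
  have hfg : (Algebra.adjoin ℚ s).FG := ⟨hs.toFinset, by rw [hs.coe_toFinset]⟩
  have h1 : Algebra.FiniteType ℚ (Algebra.adjoin ℚ s) := (Subalgebra.fg_iff_finiteType _).1 hfg
  exact exists_hom_aux K (Algebra.adjoin ℚ s)

open Pool.Agent.H826R3.SM

/-- A decomposition over some field of characteristic zero gives one over each algebraically closed
field of characteristic zero. -/
theorem hasRank_transfer (K Ω : Type) [Field K] [IsAlgClosed K] [CharZero K] [Field Ω] [CharZero Ω]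
    {n r : ℕ} (h : HasRank Ω n r) : HasRank K n r := by
  obtain ⟨a, b, c, h⟩ := h
  set s : Set Ω := (Set.range (fun q : Fin r × Fin n × Fin n => a q.1 q.2.1 q.2.2) ∪
    Set.range (fun q : Fin r × Fin n × Fin n => b q.1 q.2.1 q.2.2)) ∪
    Set.range (fun q : Fin r × Fin n × Fin n => c q.1 q.2.1 q.2.2) with hs
  have hsf : s.Finite := ((Set.finite_range _).union (Set.finite_range _)).union
    (Set.finite_range _)
  obtain ⟨ψ⟩ := exists_hom K s hsf
  set S := Algebra.adjoin ℚ s with hS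
  have ha : ∀ t i j, a t i j ∈ S :=
    fun t i j => Algebra.subset_adjoin (Or.inl (Or.inl ⟨(t, i, j), rfl⟩))
  have hb : ∀ t i j, b t i j ∈ S :=
    fun t i j => Algebra.subset_adjoin (Or.inl (Or.inr ⟨(t, i, j), rfl⟩))
  have hc : ∀ t i j, c t i j ∈ S :=
    fun t i j => Algebra.subset_adjoin (Or.inr ⟨(t, i, j), rfl⟩)
  refine ⟨fun t i j => ψ ⟨a t i j, ha t i j⟩, fun t i j => ψ ⟨b t i j, hb t i j⟩,
    fun t i j => ψ ⟨c t i j, hc t i j⟩, fun i j j' k k' l => ?_⟩
  have h1 : (∑ t : Fin r, (⟨a t i j, ha t i j⟩ : S) * ⟨b t j' k, hb t j' k⟩ * ⟨c t k' l, hc t k' l⟩)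
      = if j = j' ∧ k = k' ∧ l = i then (1 : S) else 0 := by
    apply Subtype.ext
    have := (h i j j' k k' l).symm
    rw [AddSubmonoidClass.coe_finset_sum]
    refine this.trans ?_
    split_ifs <;> rfl
  have h2 := congrArg ψ h1
  simp only [map_sum, map_mul] at h2
  rw [h2]
  split_ifs <;> simp

theorem rk_eq (K : Type) [Field K] [IsAlgClosed K] [CharZero K] (n : ℕ) : rk K n = rk ℂ n := by
  unfold rk
  congr 1
  ext r
  exact ⟨hasRank_transfer ℂ K, hasRank_transfer K ℂ⟩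

theorem omegaMM_eq (K : Type) [Field K] [IsAlgClosed K] [CharZero K] :
    omegaMM K = Pool.Agent.H515R2.MMR.omega := by
  unfold omegaMM Pool.Agent.H515R2.MMR.omega
  simp only [rk_eq K]
  rfl

end Pool.Agent.V11190.VM
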