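import Pool.Agent.W966.Vg.Path
import Pool.Agent.W956.KF.Growth

/-!
# A deterministic verification procedure from a bilinear algorithm
-/

set_option autoImplicit false

namespace Pool.Agent.V11190.VM

open Pool.Agent.W966.Vg

section trees

variable {K ι : Type} [Field K] [Fintype ι]

/-- Make the products and continue. -/
def prods : List (LF K ι × LF K ι) → NTree K ι → NTree K ι
  | [], t => t
  | p :: l, t => .mul p.1 p.2 (prods l t)

/-- Accept if all linear combinations are zero. -/
def tests : List (LF K ι) → NTree K ι
  | [] => .accept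
  | f :: l => .test f (tests l) .reject

lemma paths_tests (l : List (LF K ι)) : paths (tests l) = {l.foldr W966.Vg.Path.isz .stop} := by
  induction l with
  | nil => rfl
  | cons f l ih =>
    show W966.Vg.Path.isz f '' paths (tests l) ∪ W966.Vg.Path.nz f '' ∅ = _
    rw [ih]
    simp

lemma paths_prods (l : List (LF K ι × LF K ι)) (t : NTree K ι) :
    paths (prods l t) = (fun p => l.foldr (fun q p => W966.Vg.Path.mul q.1 q.2 p) p) '' paths t := by
  induction l with
  | nil => simp [prods]
  | cons f l ih =>
    show W966.Vg.Path.mul f.1 f.2 '' paths (prods l t) = _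
    rw [ih, Set.image_image]
    rfl

lemma ok_tests (x : ι → K) (g : ℕ → K) (l : List (LF K ι)) (n : ℕ) :
    (l.foldr W966.Vg.Path.isz (.stop : Path K ι)).Ok x g n ↔ ∀ f ∈ l, f.val x n g = 0 := by
  induction l with
  | nil => simp [W966.Vg.Path.Ok]
  | cons f l ih =>
    simp only [List.foldr_cons, W966.Vg.Path.Ok, ih, List.mem_cons, forall_eq_or_imp]

lemma muls_tests (l : List (LF K ι)) : (l.foldr W966.Vg.Path.isz (.stop : Path K ι)).muls = 0 := by
  induction l with
  | nil => rfl
  | cons f l ih => simpa [W966.Vg.Path.muls] using ih

lemma muls_prods (l : List (LF K ι × LF K ι)) (p : Path K ι) :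
    (l.foldr (fun q p => W966.Vg.Path.mul q.1 q.2 p) p).muls = p.muls + l.length := by
  induction l with
  | nil => rfl
  | cons f l ih => simp only [List.foldr_cons, W966.Vg.Path.muls, ih, List.length_cons]; omega

lemma ok_prods (x : ι → K) (g : ℕ → K) (l : List (LF K ι × LF K ι)) (p : Path K ι) (n : ℕ) :
    (l.foldr (fun q p => W966.Vg.Path.mul q.1 q.2 p) p).Ok x g n ↔
      (∀ (i : ℕ) (hi : i < l.length), g (n + i) =
        (l[i]).1.val x (n + i) g * (l[i]).2.val x (n + i) g) ∧ p.Ok x g (n + l.length) := by
  induction l generalizing n with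
  | nil => simp
  | cons f l ih =>
    simp only [List.foldr_cons, W966.Vg.Path.Ok, ih, List.length_cons]
    constructor
    · rintro ⟨h1, h2, h3⟩
      refine ⟨fun i hi => ?_, by rwa [show n + (l.length + 1) = n + 1 + l.length by omega]⟩
      rcases i with _ | i
      · simpa using h1
      · have := h2 i (by omega)
        rw [show n + 1 + i = n + (i + 1) by omega] at this
        simpa using this
    · rintro ⟨h1, h2⟩
      refine ⟨by simpa using h1 0 (by omega), fun i hi => ?_,
        by rwa [show n + 1 + l.length = n + (l.length + 1) by omega]⟩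
      have := h1 (i + 1) (by omega)
      rw [show n + (i + 1) = n + 1 + i by omega] at this
      simpa using this

/-- Acceptance of the tree which makes the products and then tests. -/
theorem accepts_iff (x : ι → K) (l : List (LF K ι × LF K ι)) (l' : List (LF K ι))
    (P : ℕ → K) (hP : ∀ (i : ℕ) (hi : i < l.length),
      P i = (l[i]).1.val x i P * (l[i]).2.val x i P) :
    (prods l (tests l')).Accepts x l.length ↔ ∀ f ∈ l', f.val x l.length P = 0 := by
  have h1 : paths (prods l (tests l')) =
      {l.foldr (fun q p => W966.Vg.Path.mul q.1 q.2 p) (l'.foldr W966.Vg.Path.isz .stop)} := by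
    rw [paths_prods, paths_tests, Set.image_singleton]
  constructor
  · intro h
    obtain ⟨p, hp, -, g', -, hok⟩ := path_of_acc x _ 0 0 _ h
    rw [h1, Set.mem_singleton_iff] at hp
    subst hp
    rw [ok_prods, ok_tests] at hok
    intro f hf
    have h2 := hok.2 f hf
    rw [zero_add] at h2
    rw [← h2]
    have h4 : ∀ s, s < l.length → P s = g' s := by
      intro s
      induction s using Nat.strong_induction_on with
      | _ s ih =>
        intro hs
        have h3 := hok.1 s hs
        rw [zero_add] at h3
        rw [h3, hP s hs, (l[s]).1.val_congr x fun i hi => ih i hi (hi.trans hs),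
          (l[s]).2.val_congr x fun i hi => ih i hi (hi.trans hs)]
    exact f.val_congr x fun s hs => h4 s hs
  · intro h
    refine acc_of_path x _ 0 0 l.length _ (by rw [h1]; exact Set.mem_singleton _) ?_ P
      (fun s hs => absurd hs (Nat.not_lt_zero s)) ?_
    · rw [muls_prods, muls_tests, zero_add]
    · rw [ok_prods, ok_tests]
      refine ⟨fun i hi => ?_, fun f hf => ?_⟩
      · rw [zero_add]
        exact hP i hi
      · rw [zero_add]
        exact h f hf

end trees

end Pool.Agent.V11190.VM
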