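import Pool.Agent.V11190.VM.Bil
import Pool.Agent.V11190.VM.Rk
import Pool.Agent.V11190.VM.Upper
import Pool.Agent.H239.SP.Part6

/-!
# The cost of the verification of matrix products
-/

set_option autoImplicit false

namespace Pool.Agent.V11190.VM

open MvPolynomial Finset Filter Pool.Agent.W966.Vg Pool.Agent.W956.KF Pool.Agent.H826R3.SM

/-- The positions of the entries of two `m × m` matrices. -/
abbrev Pos2 (m : ℕ) : Type := (Fin m × Fin m) ⊕ (Fin m × Fin m)

/-- The positions of the entries of three `m × m` matrices. -/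
abbrev Pos3 (m : ℕ) : Type := Pos2 m ⊕ (Fin m × Fin m)

/-- The entries of `A` and `B`. -/
def pair {K : Type} {m : ℕ} (A B : Matrix (Fin m) (Fin m) K) : Pos2 m → K :=
  Sum.elim (fun p => A p.1 p.2) fun p => B p.1 p.2

/-- The entries of `A`, `B` and `C`. -/
def triple {K : Type} {m : ℕ} (A B C : Matrix (Fin m) (Fin m) K) : Pos3 m → K :=
  Sum.elim (pair A B) fun p => C p.1 p.2

/-- The procedure `t` verifies products of `m × m` matrices with `L` multiplications and divisions:
with so many of them, it can accept `A, B, C` if and only if `C = A B`. -/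
def Verifies {K : Type} [Field K] {m : ℕ} (t : NTree K (Pos3 m)) (L : ℕ) : Prop :=
  ∀ A B C : Matrix (Fin m) (Fin m) K, t.Accepts (triple A B C) L ↔ C = A * B

/-- The procedure `t` weakly verifies products of `m × m` matrices with `L` multiplications and
divisions and with lists of length `M`: for a Zariski dense set of pairs `A, B` it can, with so many
of them, accept `A, B, A B`, and it can accept `A, B, C` for at most `M` matrices `C`. -/
def WeaklyVerifies {K : Type} [Field K] {m : ℕ} (M : ℕ) (t : NTree K (Pos3 m)) (L : ℕ) : Prop :=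
  ∀ p : MvPolynomial (Pos2 m) K, p ≠ 0 → ∃ A B : Matrix (Fin m) (Fin m) K,
    eval (pair A B) p ≠ 0 ∧ t.Accepts (triple A B (A * B)) L ∧
      ∃ 𝒞 : Fin M → Matrix (Fin m) (Fin m) K, ∀ C, t.Accepts (triple A B C) L → ∃ i, C = 𝒞 i

/-- The least `L` such that some procedure verifies products of `m × m` matrices over `K` with `L`
multiplications and divisions. -/
noncomputable def verCost (K : Type) [Field K] (m : ℕ) : ℕ :=
  sInf {L | ∃ t : NTree K (Pos3 m), Verifies t L}

/-- The least `L` such that some procedure weakly verifies products of `m × m` matrices over `K` with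
`L` multiplications and divisions and with lists of some length. -/
noncomputable def weakCost (K : Type) [Field K] (m : ℕ) : ℕ :=
  sInf {L | ∃ (M : ℕ) (t : NTree K (Pos3 m)), WeaklyVerifies M t L}

lemma eval_mm {K : Type} [Field K] {m : ℕ} (A B : Matrix (Fin m) (Fin m) K) (v : Fin m × Fin m) :
    eval (pair A B) (mm K m v) = (A * B) v.1 v.2 := by
  unfold mm pair
  simp [Matrix.mul_apply]

lemma Verifies.weak {K : Type} [Field K] [Infinite K] {m L : ℕ} {t : NTree K (Pos3 m)}
    (h : Verifies t L) : WeaklyVerifies 1 t L := by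
  intro p hp
  obtain ⟨x, hx⟩ : ∃ x : Pos2 m → K, eval x p ≠ 0 := by
    by_contra hcon
    push Not at hcon
    exact hp (MvPolynomial.funext fun x => by rw [hcon x, map_zero])
  refine ⟨Matrix.of fun i j => x (Sum.inl (i, j)), Matrix.of fun i j => x (Sum.inr (i, j)), ?_,
    (h _ _ _).2 rfl, fun _ => _, fun C hC => ⟨0, (h _ _ _).1 hC⟩⟩
  have e : pair (Matrix.of fun i j => x (Sum.inl (i, j))) (Matrix.of fun i j => x (Sum.inr (i, j))) =
      x := by
    funext e
    rcases e with e | e <;> rfl
  rw [e]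
  exact hx

theorem approx_of_weak {K : Type} [Field K] [IsAlgClosed K] [CharZero K] {m M L : ℕ}
    {t : NTree K (Pos3 m)} (h : WeaklyVerifies M t L) : Approx K _ _ L (mm K m) := by
  have key := approx_of_dense (K := K) (ι := Pos2 m) (V := Fin m × Fin m) (L := L) (M := M)
    (d := 2) t (mm K m) (mm_degree K m) (by
      intro p hp
      obtain ⟨A, B, h1, h2, 𝒞, h3⟩ := h p hp
      refine ⟨pair A B, h1, ?_, fun i v => 𝒞 i v.1 v.2, fun y hy => ?_⟩
      · convert h2 using 1
        unfold triple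
        congr 1
        funext v
        exact eval_mm A B v
      · obtain ⟨i, hi⟩ := h3 (Matrix.of fun a b => y (a, b)) (by
          have e : triple A B (Matrix.of fun a b => y (a, b)) = Sum.elim (pair A B) y := by
            unfold triple
            congr 1
          rw [e]
          exact hy)
        refine ⟨i, ?_⟩
        funext v
        show y v = 𝒞 i v.1 v.2
        rw [← hi]
        rfl)
  simpa using key

theorem closure_of_weak {K : Type} [Field K] [IsAlgClosed K] [CharZero K] {m M L : ℕ}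
    {t : NTree K (Pos3 m)} (h : WeaklyVerifies M t L) :
    InClosure {g | NSComp K (Pos2 m) (Fin m × Fin m) L g} (mm K m) :=
  (approx_of_weak h).closure

theorem omega_le_of_weak {K : Type} [Field K] [IsAlgClosed K] [CharZero K] {m M L : ℕ}
    (hm : 0 < m) {t : NTree K (Pos3 m)} (h : WeaklyVerifies M t L) :
    (m : ℝ) ^ omega K ≤ 2 * L := by
  rw [Pool.Agent.W956.KF.omega_eq, omegaMM_eq]
  exact omega_le hm (approx_of_weak h)

/-- The least `L` such that the entries of the product of two generic `m × m` matrices can be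
computed with `L` multiplications. -/
noncomputable def nsCost (K : Type) [Field K] (m : ℕ) : ℕ :=
  sInf {L | NSComp K (Pos2 m) (Fin m × Fin m) L (mm K m)}

/-- The approximative number of multiplications: the least `L` such that the tuple of the entries of
the product of two generic `m × m` matrices lies in the Zariski closure of the set of the tuples
which can be computed with `L` multiplications. -/
noncomputable def appCost (K : Type) [Field K] (m : ℕ) : ℕ :=
  sInf {L | InClosure {g | NSComp K (Pos2 m) (Fin m × Fin m) L g} (mm K m)}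

lemma eval_val {K ι : Type} [Field K] [Fintype ι] (x : ι → K) (f : LF K ι) (l : ℕ)
    (g : ℕ → MvPolynomial ι K) : eval x (f.val X l g) = f.val x l fun s => eval x (g s) := by
  unfold LF.val
  simp [MvPolynomial.algebraMap_eq]

/-- A computation gives a verification. -/
theorem exists_verifies {K : Type} [Field K] {m L : ℕ}
    (h : NSComp K (Pos2 m) (Fin m × Fin m) L (mm K m)) : ∃ t : NTree K (Pos3 m), Verifies t L := by
  classical
  obtain ⟨a, b, o, g, h1, h2⟩ := h
  let lift : LF K (Pos2 m) → LF K (Pos3 m) := fun f => ⟨f.c, Sum.elim f.x 0, f.r⟩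
  let fT : Fin m × Fin m → LF K (Pos3 m) := fun v =>
    ⟨- (o v).c, Sum.elim (fun i => - (o v).x i) (Pi.single v 1), fun s => - (o v).r s⟩
  let l : List (LF K (Pos3 m) × LF K (Pos3 m)) :=
    List.ofFn fun s : Fin L => (lift (a s), lift (b s))
  have hl : l.length = L := List.length_ofFn
  refine ⟨prods l (tests (Finset.univ.toList.map fT)), fun A B C => ?_⟩
  let P : ℕ → K := fun s => eval (pair A B) (g s)
  have hlift : ∀ (f : LF K (Pos2 m)) (i : ℕ), (lift f).val (triple A B C) i P =
      eval (pair A B) (f.val X i g) := by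
    intro f i
    rw [eval_val]
    simp [lift, LF.val, triple, P]
  have key := accepts_iff (triple A B C) l (Finset.univ.toList.map fT) P (by
    intro i hi
    have hi' : i < L := by rwa [hl] at hi
    have e : l[i] = (lift (a i), lift (b i)) := by
      simp [l]
    rw [e]
    simp only [hlift]
    rw [← map_mul, ← h1 i hi'])
  rw [hl] at key
  rw [key]
  have hT : ∀ v : Fin m × Fin m, (fT v).val (triple A B C) L P = C v.1 v.2 - (A * B) v.1 v.2 := by
    intro v
    rw [← eval_mm A B v, h2 v, eval_val]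
    unfold LF.val
    simp only [fT, triple, Fintype.sum_sum_type (α₁ := Pos2 m), Sum.elim_inl, Sum.elim_inr,
      Algebra.algebraMap_self, RingHom.id_apply, neg_mul, Finset.sum_neg_distrib, P]
    rw [Finset.sum_eq_single (a := v) (f := fun w => (Pi.single v (1 : K) : _ → K) w * C w.1 w.2)
      (fun w _ hw => by rw [Pi.single_eq_of_ne hw, zero_mul])
      (fun h => absurd (Finset.mem_univ _) h), Pi.single_eq_same, one_mul]
    ring
  constructor
  · intro h
    ext i j
    have := h (fT (i, j)) (List.mem_map.2 ⟨(i, j), by simp, rfl⟩)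
    rw [hT, sub_eq_zero] at this
    exact this
  · rintro rfl f hf
    obtain ⟨v, -, rfl⟩ := List.mem_map.1 hf
    rw [hT, sub_self]

/-- A bilinear algorithm is a computation. -/
theorem nsComp_of_rank {K : Type} [Field K] [Infinite K] {m r : ℕ} (h : RankLE K m m m r) :
    NSComp K (Pos2 m) (Fin m × Fin m) r (mm K m) := by
  obtain ⟨U, V, W, h⟩ := h
  have hA : Pool.Agent.H88R3.MM.IsAlg U V W :=
    Pool.Agent.H88R3.MM.isAlg_of_coeff fun i i' j j' k k' => h i i' j j' k k'
  let fa : ℕ → LF K (Pos2 m) := fun s =>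
    ⟨0, Sum.elim (fun p => if h : s < r then U ⟨s, h⟩ p.1 p.2 else 0) 0, 0⟩
  let fb : ℕ → LF K (Pos2 m) := fun s =>
    ⟨0, Sum.elim 0 (fun p => if h : s < r then V ⟨s, h⟩ p.1 p.2 else 0), 0⟩
  let g : ℕ → MvPolynomial (Pos2 m) K := fun s => (fa s).val X 0 0 * (fb s).val X 0 0
  have hfa : ∀ (s i : ℕ) (g' : ℕ → MvPolynomial (Pos2 m) K),
      (fa s).val X i g' = (fa s).val X 0 0 := by
    intro s i g'
    simp [fa, LF.val]
  have hfb : ∀ (s i : ℕ) (g' : ℕ → MvPolynomial (Pos2 m) K),
      (fb s).val X i g' = (fb s).val X 0 0 := by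
    intro s i g'
    simp [fb, LF.val]
  refine ⟨fa, fb, fun v => ⟨0, 0, fun s => if h : s < r then W ⟨s, h⟩ v.1 v.2 else 0⟩, g,
    fun s _ => ?_, fun v => ?_⟩
  · rw [hfa, hfb]
  · refine MvPolynomial.funext fun x => ?_
    let A : Matrix (Fin m) (Fin m) K := Matrix.of fun i j => x (Sum.inl (i, j))
    let B : Matrix (Fin m) (Fin m) K := Matrix.of fun i j => x (Sum.inr (i, j))
    have hx : pair A B = x := by
      funext e
      rcases e with e | e <;> rfl
    rw [← hx, eval_mm, hA A B, Matrix.sum_apply, eval_val]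
    unfold LF.val
    simp only [map_zero, Pi.zero_apply, zero_mul, Finset.sum_const_zero, zero_add]
    rw [Finset.sum_range]
    refine Finset.sum_congr rfl fun s _ => ?_
    rw [dif_pos s.2, Matrix.smul_apply, smul_eq_mul, mul_comm]
    congr 1
    simp only [g, map_mul, eval_val]
    simp [fa, fb, LF.val, pair, Fintype.sum_prod_type]

theorem nsCost_le (K : Type) [Field K] [Infinite K] (m : ℕ) : nsCost K m ≤ trank K m m m :=
  Nat.sInf_le (nsComp_of_rank (rankLE_trank K m m m))

theorem nsCost_mem (K : Type) [Field K] [Infinite K] (m : ℕ) :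
    NSComp K (Pos2 m) (Fin m × Fin m) (nsCost K m) (mm K m) :=
  Nat.sInf_mem (s := {L | NSComp K (Pos2 m) (Fin m × Fin m) L (mm K m)})
    ⟨_, nsComp_of_rank (rankLE_trank K m m m)⟩

theorem verCost_le_nsCost (K : Type) [Field K] [Infinite K] (m : ℕ) :
    verCost K m ≤ nsCost K m :=
  Nat.sInf_le (exists_verifies (nsCost_mem K m))

theorem verCost_le (K : Type) [Field K] [Infinite K] (m : ℕ) : verCost K m ≤ trank K m m m :=
  (verCost_le_nsCost K m).trans (nsCost_le K m)

theorem verCost_mem (K : Type) [Field K] [Infinite K] (m : ℕ) :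
    ∃ t : NTree K (Pos3 m), Verifies t (verCost K m) :=
  Nat.sInf_mem (s := {L | ∃ t : NTree K (Pos3 m), Verifies t L})
    ⟨_, exists_verifies (nsCost_mem K m)⟩

theorem weakCost_le (K : Type) [Field K] [Infinite K] (m : ℕ) : weakCost K m ≤ verCost K m := by
  obtain ⟨t, ht⟩ := verCost_mem K m
  exact Nat.sInf_le ⟨1, t, ht.weak⟩

theorem weakCost_mem (K : Type) [Field K] [Infinite K] (m : ℕ) :
    ∃ (M : ℕ) (t : NTree K (Pos3 m)), WeaklyVerifies M t (weakCost K m) := by
  obtain ⟨t, ht⟩ := verCost_mem K m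
  exact Nat.sInf_mem (s := {L | ∃ (M : ℕ) (t : NTree K (Pos3 m)), WeaklyVerifies M t L})
    ⟨_, 1, t, ht.weak⟩

theorem appCost_le (K : Type) [Field K] [IsAlgClosed K] [CharZero K] (m : ℕ) :
    appCost K m ≤ weakCost K m := by
  obtain ⟨M, t, h⟩ := weakCost_mem K m
  exact Nat.sInf_le (closure_of_weak h)

theorem omega_le_weakCost (K : Type) [Field K] [IsAlgClosed K] [CharZero K] {m : ℕ} (hm : 0 < m) :
    (m : ℝ) ^ omega K ≤ 2 * weakCost K m := by
  obtain ⟨M, t, h⟩ := weakCost_mem K m
  exact omega_le_of_weak hm h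

/-- upper bounds by the exponent -/
theorem trank_upper (K : Type) [Field K] {τ : ℝ} (hτ : omega K < τ) :
    ∃ D : ℝ, ∀ m : ℕ, (trank K m m m : ℝ) ≤ D * (m : ℝ) ^ τ := by
  rw [omega_eq] at hτ
  obtain ⟨D, hD⟩ := sizeMM_upper (K := K) hτ
  refine ⟨12 * D, fun m => ?_⟩
  have h1 : (trank K m m m : ℝ) ≤ 12 * (sizeMM K m : ℝ) := by
    exact_mod_cast Pool.Agent.H239.SP.trank_le_sizeMM K m
  have h2 := hD m
  nlinarith

/-- The growth of a function between `m ^ ω / c` and the rank. -/
theorem growth_of (K : Type) [Field K] {f : ℕ → ℕ} {c : ℝ} (hc : 0 < c)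
    (hlo : ∀ m : ℕ, 0 < m → (m : ℝ) ^ omega K ≤ c * f m) (hup : ∀ m, f m ≤ trank K m m m) :
    growth f = omega K := by
  have hlow : ∀ τ ∈ {τ : ℝ | ∃ D : ℝ, ∀ m : ℕ, (f m : ℝ) ≤ D * (m : ℝ) ^ τ}, omega K ≤ τ := by
    rintro τ ⟨D, hD⟩
    by_contra hcon
    push Not at hcon
    have hlim : Tendsto (fun q : ℕ => (q : ℝ) ^ (omega K - τ)) atTop atTop :=
      (tendsto_rpow_atTop (by linarith)).comp tendsto_natCast_atTop_atTop
    obtain ⟨m, hm1, hm2⟩ := ((hlim.eventually_gt_atTop (c * D)).and
      (eventually_ge_atTop 1)).exists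
    have hm0 : (0 : ℝ) < m := by exact_mod_cast hm2
    have h1 := hlo m hm2
    have h2 := hD m
    have h3 : (m : ℝ) ^ omega K = (m : ℝ) ^ (omega K - τ) * (m : ℝ) ^ τ := by
      rw [← Real.rpow_add hm0]
      congr 1
      ring
    have h4 : 0 < (m : ℝ) ^ τ := Real.rpow_pos_of_pos hm0 _
    rw [h3] at h1
    have h5 : c * D * (m : ℝ) ^ τ < (m : ℝ) ^ (omega K - τ) * (m : ℝ) ^ τ :=
      mul_lt_mul_of_pos_right hm1 h4
    have h6 : c * (f m : ℝ) ≤ c * (D * (m : ℝ) ^ τ) := mul_le_mul_of_nonneg_left h2 hc.le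
    linarith [mul_assoc c D ((m : ℝ) ^ τ)]
  have hmem : ∀ τ, omega K < τ → τ ∈ {τ : ℝ | ∃ D : ℝ, ∀ m : ℕ, (f m : ℝ) ≤ D * (m : ℝ) ^ τ} := by
    intro τ hτ
    obtain ⟨D, hD⟩ := trank_upper K hτ
    exact ⟨D, fun m => le_trans (by exact_mod_cast hup m) (hD m)⟩
  apply le_antisymm
  · refine le_of_forall_pos_le_add fun ε hε => ?_
    exact csInf_le ⟨omega K, hlow⟩ (hmem _ (by linarith))
  · exact le_csInf ⟨_, hmem (omega K + 1) (by linarith)⟩ hlow

theorem superlinear_of (K : Type) [Field K] {f : ℕ → ℕ} {c : ℝ} (hc : 0 < c)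
    (hlo : ∀ m : ℕ, 0 < m → (m : ℝ) ^ omega K ≤ c * f m) (hup : ∀ m, f m ≤ trank K m m m) :
    Superlinear f ↔ Superlinear (sizeMM K) := by
  rw [Pool.Agent.H239.SP.superlinear_sizeMM, ← omega_eq]
  constructor
  · rintro ⟨α, hα, a, ha, h⟩
    by_contra hcon
    push Not at hcon
    obtain ⟨D, hD⟩ := trank_upper K (τ := 1 + α) (by linarith)
    have hlim : Tendsto (fun q : ℕ => (q : ℝ) ^ (2 * α - (1 + α))) atTop atTop :=
      (tendsto_rpow_atTop (by linarith)).comp tendsto_natCast_atTop_atTop
    obtain ⟨m, hm1, hm2⟩ := ((hlim.eventually_gt_atTop (D / a)).and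
      (eventually_ge_atTop 1)).exists
    have hm0 : (0 : ℝ) < m := by exact_mod_cast hm2
    have h1 := h m
    have h2 : (f m : ℝ) ≤ D * (m : ℝ) ^ (1 + α) := le_trans (by exact_mod_cast hup m) (hD m)
    have h3 : ((m : ℝ) ^ 2) ^ α = (m : ℝ) ^ (2 * α - (1 + α)) * (m : ℝ) ^ (1 + α) := by
      rw [← Real.rpow_add hm0, ← Real.rpow_natCast, ← Real.rpow_mul hm0.le]
      congr 1
      push_cast
      ring
    have h4 : 0 < (m : ℝ) ^ (1 + α) := Real.rpow_pos_of_pos hm0 _
    rw [h3] at h1
    rw [div_lt_iff₀ ha] at hm1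
    have h5 : D * (m : ℝ) ^ (1 + α) < (m : ℝ) ^ (2 * α - (1 + α)) * a * (m : ℝ) ^ (1 + α) :=
      mul_lt_mul_of_pos_right hm1 h4
    nlinarith
  · intro h
    refine ⟨omega K / 2, by linarith, 1 / c, by positivity, fun m => ?_⟩
    rcases Nat.eq_zero_or_pos m with rfl | hm
    · have : ((0 : ℕ) : ℝ) ^ 2 = 0 := by norm_num
      rw [this, Real.zero_rpow (by linarith), mul_zero]
      exact Nat.cast_nonneg _
    · have hm0 : (0 : ℝ) < m := by exact_mod_cast hm
      have h1 : ((m : ℝ) ^ 2) ^ (omega K / 2) = (m : ℝ) ^ omega K := by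
        rw [← Real.rpow_natCast, ← Real.rpow_mul hm0.le]
        congr 1
        push_cast
        ring
      rw [h1, one_div, inv_mul_le_iff₀ hc]
      exact hlo m hm

end Pool.Agent.V11190.VM
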